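import Pool.Agent.helper80.SV.Spec

/-!
Project sv, module CHN: chain rule for substitutions.
-/

set_option autoImplicit false

namespace Pool.Agent.SV

open MvPolynomial Module

theorem CHN : CHN_stmt := by
  intro ι _ _ φ f j
  induction f using MvPolynomial.induction_on with
  | C a => simp
  | add p q hp hq =>
    simp only [map_add, hp, hq, add_mul, Finset.sum_add_distrib]
  | mul_X p k hp =>
    rw [map_mul, bind₁_X_right, Derivation.leibniz, hp]
    have h1 : ∀ i, bind₁ φ (pderiv i (p * X k)) * pderiv j (φ i) =
        φ k * (bind₁ φ (pderiv i p) * pderiv j (φ i)) +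
          (if i = k then bind₁ φ p * pderiv j (φ i) else 0) := by
      intro i
      rw [Derivation.leibniz, smul_eq_mul, smul_eq_mul, map_add, map_mul, map_mul, bind₁_X_right]
      by_cases h : i = k
      · subst h
        rw [pderiv_X_self, map_one, if_pos rfl]
        ring
      · rw [pderiv_X_of_ne (Ne.symm h), map_zero, if_neg h]
        ring
    rw [Finset.sum_congr rfl (fun i _ => h1 i), Finset.sum_add_distrib, ← Finset.mul_sum,
      Finset.sum_ite_eq' Finset.univ k, if_pos (Finset.mem_univ k), smul_eq_mul, smul_eq_mul]
    ring

end Pool.Agent.SV
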