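import Pool.Agent.helper65.SV.SpecE

set_option autoImplicit false
set_option linter.unusedSectionVars false

namespace Pool.Agent.SV

open MvPolynomial Module

section PBR
variable {k : ℕ} (n d : Fin k → ℕ) (j : Fin k)

/-- the variable `X_(j,0)` -/
def PBR_z : Var n := ⟨j, 0⟩

/-- the variable `X_(j,1)` -/
def PBR_o : Var n := ⟨j, Fin.last (n j)⟩

/-- the variables of the other factors -/
def PBR_v (i : {i : Fin k // i ≠ j}) (a : ZMod (n i + 1)) : Var n := ⟨i.1, (a : Fin (n i.1 + 1))⟩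

theorem PBR_v_eq (i i' : {i : Fin k // i ≠ j}) (a : ZMod (n i + 1)) (a' : ZMod (n i' + 1))
    (h : PBR_v n j i a = PBR_v n j i' a') : i = i' := by
  apply Subtype.ext
  exact congrArg Sigma.fst h

theorem PBR_v_inj (i : {i : Fin k // i ≠ j}) (a a' : ZMod (n i + 1)) :
    PBR_v n j i a = PBR_v n j i a' ↔ a = a' := by
  constructor
  · intro h
    have h' := Sigma.mk.inj h
    exact eq_of_heq h'.2
  · rintro rfl
    rfl

theorem PBR_v_ne_z (i : {i : Fin k // i ≠ j}) (a : ZMod (n i + 1)) : PBR_v n j i a ≠ PBR_z n j := by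
  intro h
  exact i.2 (congrArg Sigma.fst h)

theorem PBR_v_ne_o (i : {i : Fin k // i ≠ j}) (a : ZMod (n i + 1)) : PBR_v n j i a ≠ PBR_o n j := by
  intro h
  exact i.2 (congrArg Sigma.fst h)

theorem PBR_z_ne_o (hn : n j = 1) : PBR_z n j ≠ PBR_o n j := by
  intro h
  have h' := Sigma.mk.inj h
  have h2 := eq_of_heq h'.2
  have h3 := congrArg Fin.val h2
  simp only [Fin.val_last] at h3
  have h4 : ((0 : Fin (n j + 1)) : ℕ) = 0 := Fin.val_zero _
  omega

theorem PBR_cases (hn : n j = 1) (v : Var n) :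
    (∃ (i : {i : Fin k // i ≠ j}) (a : ZMod (n i + 1)), v = PBR_v n j i a) ∨ v = PBR_z n j ∨
      v = PBR_o n j := by
  obtain ⟨i, a⟩ := v
  by_cases h : i = j
  · subst h
    right
    by_cases ha : (a : ℕ) = 0
    · left
      unfold PBR_z
      congr 1
      exact Fin.ext (by rw [ha]; rfl)
    · right
      unfold PBR_o
      congr 1
      apply Fin.ext
      have := a.2
      simp only [Fin.val_last]
      omega
  · left
    exact ⟨⟨i, h⟩, a, rfl⟩

/-- the exponent of `∏ X_(i, c i) X_(j,0)^(d j - b) X_(j,1)^b` -/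
noncomputable def PBR_mu (c : Cell (fun i : {i : Fin k // i ≠ j} => n i)) (b : ℕ) : Var n →₀ ℕ :=
  ∑ i : {i : Fin k // i ≠ j}, Finsupp.single (PBR_v n j i (c i)) 1 +
    Finsupp.single (PBR_z n j) (d j - b) + Finsupp.single (PBR_o n j) b

theorem PBR_mu_v (c : Cell (fun i : {i : Fin k // i ≠ j} => n i)) (b : ℕ)
    (i : {i : Fin k // i ≠ j}) (a : ZMod (n i + 1)) :
    PBR_mu n d j c b (PBR_v n j i a) = if c i = a then 1 else 0 := by
  classical
  unfold PBR_mu
  rw [Finsupp.add_apply, Finsupp.add_apply, Finsupp.finsetSum_apply]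
  rw [Finsupp.single_eq_of_ne (PBR_v_ne_z n j i a), Finsupp.single_eq_of_ne (PBR_v_ne_o n j i a)]
  rw [add_zero, add_zero, Finset.sum_eq_single i]
  · rw [Finsupp.single_apply]
    simp only [PBR_v_inj]
  · intro i' _ hi'
    rw [Finsupp.single_apply, if_neg]
    intro h
    exact hi' (PBR_v_eq n j i' i _ _ h)
  · intro h
    exact absurd (Finset.mem_univ i) h

theorem PBR_mu_z (hn : n j = 1) (c : Cell (fun i : {i : Fin k // i ≠ j} => n i)) (b : ℕ) :
    PBR_mu n d j c b (PBR_z n j) = d j - b := by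
  classical
  unfold PBR_mu
  rw [Finsupp.add_apply, Finsupp.add_apply, Finsupp.finsetSum_apply]
  rw [Finsupp.single_eq_same, Finsupp.single_eq_of_ne (PBR_z_ne_o n j hn)]
  rw [add_zero, Finset.sum_eq_zero, zero_add]
  intro i _
  exact Finsupp.single_eq_of_ne (PBR_v_ne_z n j i _).symm

theorem PBR_mu_o (hn : n j = 1) (c : Cell (fun i : {i : Fin k // i ≠ j} => n i)) (b : ℕ) :
    PBR_mu n d j c b (PBR_o n j) = b := by
  classical
  unfold PBR_mu
  rw [Finsupp.add_apply, Finsupp.add_apply, Finsupp.finsetSum_apply]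
  rw [Finsupp.single_eq_same, Finsupp.single_eq_of_ne (PBR_z_ne_o n j hn).symm]
  rw [add_zero, Finset.sum_eq_zero, zero_add]
  intro i _
  exact Finsupp.single_eq_of_ne (PBR_v_ne_o n j i _).symm

theorem PBR_mu_inj (hn : n j = 1) (c c' : Cell (fun i : {i : Fin k // i ≠ j} => n i)) (b b' : ℕ)
    (h : PBR_mu n d j c b = PBR_mu n d j c' b') : c = c' ∧ b = b' := by
  constructor
  · funext i
    have h1 := congrArg (fun m : Var n →₀ ℕ => m (PBR_v n j i (c' i))) h
    simp only [PBR_mu_v, if_true] at h1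
    by_contra hne
    rw [if_neg hne] at h1
    exact absurd h1 (by norm_num)
  · have h1 := congrArg (fun m : Var n →₀ ℕ => m (PBR_o n j)) h
    simpa only [PBR_mu_o n d j hn] using h1

theorem PBR_surj (hn : n j = 1) (hd : ∀ i, i ≠ j → d i = 1) (m : Var n →₀ ℕ)
    (hm : m ∈ Mon (Sigma.fst : Var n → Fin k) Finset.univ d) :
    ∃ (c : Cell (fun i : {i : Fin k // i ≠ j} => n i)) (b : ℕ), b ∈ Finset.range (d j + 1) ∧
      m = PBR_mu n d j c b := by
  classical
  obtain ⟨-, hm⟩ := hm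
  have h1 : ∀ i : {i : Fin k // i ≠ j}, ∃ a : ZMod (n i + 1), m (PBR_v n j i a) = 1 ∧
      ∀ a', a' ≠ a → m (PBR_v n j i a') = 0 := by
    intro i
    have hs := hm i.1
    rw [hd i.1 i.2] at hs
    obtain ⟨v, hv, hv0⟩ := Finset.exists_ne_zero_of_sum_ne_zero (by rw [hs]; exact one_ne_zero)
    obtain ⟨i', a⟩ := v
    have hi' : i' = i.1 := (Finset.mem_filter.mp hv).2
    subst hi'
    refine ⟨a, ?_, ?_⟩
    · have h2 := Finset.single_le_sum (f := fun v => m v) (fun _ _ => Nat.zero_le _) hv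
      rw [hs] at h2
      have h3 : m ⟨i.1, a⟩ ≤ 1 := h2
      have h4 : m ⟨i.1, a⟩ ≠ 0 := hv0
      change m ⟨i.1, a⟩ = 1
      omega
    · intro a' ha'
      have hne : (⟨i.1, a⟩ : Var n) ≠ PBR_v n j i a' := by
        intro h
        exact ha' ((PBR_v_inj n j i a a').mp h).symm
      have hmem : PBR_v n j i a' ∈ (Finset.univ.filter (fun v : Var n => v.1 = i.1)).erase ⟨i.1, a⟩ := by
        rw [Finset.mem_erase, Finset.mem_filter]
        exact ⟨hne.symm, Finset.mem_univ _, rfl⟩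
      have h5 := Finset.add_sum_erase (Finset.univ.filter (fun v : Var n => v.1 = i.1)) (fun v => m v) hv
      have h6 := Finset.single_le_sum (f := fun v => m v) (fun _ _ => Nat.zero_le _) hmem
      have h4 : m ⟨i.1, a⟩ ≠ 0 := hv0
      have h7 : (fun v => m v) (⟨i.1, a⟩ : Var n) = m ⟨i.1, a⟩ := rfl
      have hs' : ∑ v ∈ Finset.univ.filter (fun v : Var n => v.1 = i.1), m v = 1 := hs
      have h8 : m ⟨i.1, a⟩ + ∑ x ∈ (Finset.univ.filter (fun v : Var n => v.1 = i.1)).erase ⟨i.1, a⟩, m x =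
          ∑ v ∈ Finset.univ.filter (fun v : Var n => v.1 = i.1), m v := h5
      have h9 : m (PBR_v n j i a') ≤
          ∑ x ∈ (Finset.univ.filter (fun v : Var n => v.1 = i.1)).erase ⟨i.1, a⟩, m x := h6
      omega
  choose c hc1 hc0 using h1
  have hj : m (PBR_z n j) + m (PBR_o n j) = d j := by
    have hs := hm j
    have hset : Finset.univ.filter (fun v : Var n => v.1 = j) = {PBR_z n j, PBR_o n j} := by
      ext v
      rw [Finset.mem_filter, Finset.mem_insert, Finset.mem_singleton]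
      constructor
      · rintro ⟨-, hv⟩
        rcases PBR_cases n j hn v with ⟨i, a, rfl⟩ | h | h
        · exact absurd hv i.2
        · exact Or.inl h
        · exact Or.inr h
      · rintro (rfl | rfl)
        · exact ⟨Finset.mem_univ _, rfl⟩
        · exact ⟨Finset.mem_univ _, rfl⟩
    have hs' : ∑ v ∈ Finset.univ.filter (fun v : Var n => v.1 = j), m v = d j := hs
    rw [hset, Finset.sum_pair (PBR_z_ne_o n j hn)] at hs'
    exact hs'
  refine ⟨c, m (PBR_o n j), ?_, ?_⟩
  · rw [Finset.mem_range]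
    omega
  · ext v
    rcases PBR_cases n j hn v with ⟨i, a, rfl⟩ | rfl | rfl
    · rw [PBR_mu_v]
      split_ifs with h
      · rw [← h]
        exact hc1 i
      · exact hc0 i a (fun h' => h h'.symm)
    · rw [PBR_mu_z n d j hn]
      omega
    · rw [PBR_mu_o n d j hn]

/-- the family of polynomials in one variable -/
noncomputable def PBR_Psi : MvPolynomial (Var n) ℂ →ₗ[ℂ]
    (Cell (fun i : {i : Fin k // i ≠ j} => n i) → Polynomial ℂ) where
  toFun f c := ∑ b ∈ Finset.range (d j + 1), Polynomial.monomial b (coeff (PBR_mu n d j c b) f)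
  map_add' f g := by
    funext c
    simp only [coeff_add, map_add, Finset.sum_add_distrib, Pi.add_apply]
  map_smul' s f := by
    funext c
    simp only [coeff_smul, RingHom.id_apply, Pi.smul_apply, Finset.smul_sum, Polynomial.smul_monomial]

theorem PBR_Psi_apply (f : MvPolynomial (Var n) ℂ)
    (c : Cell (fun i : {i : Fin k // i ≠ j} => n i)) :
    PBR_Psi n d j f c = ∑ b ∈ Finset.range (d j + 1),
      Polynomial.monomial b (coeff (PBR_mu n d j c b) f) := rfl

theorem PBR_Psi_coeff (f : MvPolynomial (Var n) ℂ)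
    (c : Cell (fun i : {i : Fin k // i ≠ j} => n i)) (b : ℕ) (hb : b ∈ Finset.range (d j + 1)) :
    (PBR_Psi n d j f c).coeff b = coeff (PBR_mu n d j c b) f := by
  rw [PBR_Psi_apply, Polynomial.finsetSum_coeff, Finset.sum_eq_single b]
  · rw [Polynomial.coeff_monomial_same]
  · intro b' _ hb'
    exact Polynomial.coeff_monomial_of_ne _ hb'.symm
  · intro h
    exact absurd hb h

theorem PBR_rep (hn : n j = 1) (hd : ∀ i, i ≠ j → d i = 1) (f : MvPolynomial (Var n) ℂ)
    (hf : f ∈ Sec (Sigma.fst : Var n → Fin k) Finset.univ d) :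
    f = ∑ c : Cell (fun i : {i : Fin k // i ≠ j} => n i), ∑ b ∈ Finset.range (d j + 1),
      monomial (PBR_mu n d j c b) (coeff (PBR_mu n d j c b) f) := by
  classical
  ext m
  rw [coeff_sum]
  simp only [coeff_sum, coeff_monomial]
  by_cases h : ∃ (c : Cell (fun i : {i : Fin k // i ≠ j} => n i)) (b : ℕ),
      b ∈ Finset.range (d j + 1) ∧ m = PBR_mu n d j c b
  · obtain ⟨c, b, hb, rfl⟩ := h
    rw [Finset.sum_eq_single c, Finset.sum_eq_single b]
    · rw [if_pos rfl]
    · intro b' _ hb'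
      rw [if_neg]
      intro h
      exact hb' (PBR_mu_inj n d j hn _ _ _ _ h).2
    · intro h
      exact absurd hb h
    · intro c' _ hc'
      refine Finset.sum_eq_zero fun b' _ => ?_
      rw [if_neg]
      intro h
      exact hc' (PBR_mu_inj n d j hn _ _ _ _ h).1
    · intro h
      exact absurd (Finset.mem_univ c) h
  · have h0 : coeff m f = 0 := by
      by_contra hne
      exact h (PBR_surj n d j hn hd m (mem_Sec.mp hf m hne))
    rw [h0]
    symm
    refine Finset.sum_eq_zero fun c _ => Finset.sum_eq_zero fun b hb => ?_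
    rw [if_neg]
    intro h'
    exact h ⟨c, b, hb, h'.symm⟩

/-- the value of the monomial with exponent `m` -/
noncomputable def PBR_E (x : Var n → ℂ) (m : Var n →₀ ℕ) : ℂ := m.prod (fun i e => x i ^ e)

theorem PBR_E_add (x : Var n → ℂ) (m m' : Var n →₀ ℕ) :
    PBR_E n x (m + m') = PBR_E n x m * PBR_E n x m' := by
  classical
  exact Finsupp.prod_add_index' (fun i => pow_zero _) (fun i e e' => pow_add _ _ _)

theorem PBR_E_single (x : Var n → ℂ) (v : Var n) (e : ℕ) :
    PBR_E n x (Finsupp.single v e) = x v ^ e :=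
  Finsupp.prod_single_index (pow_zero _)

theorem PBR_E_sum (x : Var n → ℂ) {I : Type} [DecidableEq I] (s : Finset I) (v : I → Var n →₀ ℕ) :
    PBR_E n x (∑ i ∈ s, v i) = ∏ i ∈ s, PBR_E n x (v i) := by
  induction s using Finset.induction_on with
  | empty => simp [PBR_E]
  | insert a s ha ih => rw [Finset.sum_insert ha, Finset.prod_insert ha, PBR_E_add, ih]

theorem PBR_eval (x : Var n → ℂ) (v : Var n) (m : Var n →₀ ℕ) (s : ℂ) :
    eval x (pderiv v (monomial m s)) = s * (m v : ℂ) * PBR_E n x (m - Finsupp.single v 1) := by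
  rw [pderiv_monomial, eval_monomial]
  rfl

/-- the point -/
noncomputable def PBR_x (y : ∀ i : {i : Fin k // i ≠ j}, ZMod (n i + 1) → ℂ) (t : ℂ) (v : Var n) : ℂ :=
  if h : v.1 = j then (if (v.2 : ℕ) = 0 then 1 else t) else y ⟨v.1, h⟩ v.2

theorem PBR_x_v (y : ∀ i : {i : Fin k // i ≠ j}, ZMod (n i + 1) → ℂ) (t : ℂ)
    (i : {i : Fin k // i ≠ j}) (a : ZMod (n i + 1)) : PBR_x n j y t (PBR_v n j i a) = y i a := by
  unfold PBR_x PBR_v
  rw [dif_neg i.2]

theorem PBR_x_z (y : ∀ i : {i : Fin k // i ≠ j}, ZMod (n i + 1) → ℂ) (t : ℂ) :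
    PBR_x n j y t (PBR_z n j) = 1 := by
  unfold PBR_x PBR_z
  rw [dif_pos rfl]
  exact if_pos (Fin.val_zero _)

theorem PBR_x_o (hn : n j = 1) (y : ∀ i : {i : Fin k // i ≠ j}, ZMod (n i + 1) → ℂ) (t : ℂ) :
    PBR_x n j y t (PBR_o n j) = t := by
  unfold PBR_x PBR_o
  rw [dif_pos rfl]
  refine if_neg ?_
  rw [Fin.val_last]
  omega

theorem PBR_dv (hn : n j = 1) (y : ∀ i : {i : Fin k // i ≠ j}, ZMod (n i + 1) → ℂ) (t : ℂ)
    (c : Cell (fun i : {i : Fin k // i ≠ j} => n i)) (b : ℕ) (s : ℂ)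
    (i : {i : Fin k // i ≠ j}) (a : ZMod (n i + 1)) :
    eval (PBR_x n j y t) (pderiv (PBR_v n j i a) (monomial (PBR_mu n d j c b) s)) =
      if c i = a then (∏ i' ∈ Finset.univ.erase i, y i' (c i')) * (s * t ^ b) else 0 := by
  classical
  rw [PBR_eval, PBR_mu_v]
  split_ifs with h
  · have h1 : PBR_mu n d j c b - Finsupp.single (PBR_v n j i a) 1 =
        ∑ i' ∈ Finset.univ.erase i, Finsupp.single (PBR_v n j i' (c i')) 1 +
          Finsupp.single (PBR_z n j) (d j - b) + Finsupp.single (PBR_o n j) b := by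
      unfold PBR_mu
      rw [← Finset.add_sum_erase Finset.univ _ (Finset.mem_univ i), h]
      rw [add_assoc, add_assoc, add_tsub_cancel_left, ← add_assoc]
    rw [h1, PBR_E_add, PBR_E_add, PBR_E_sum]
    simp only [PBR_E_single, PBR_x_v, PBR_x_z, PBR_x_o n j hn, pow_one, one_pow]
    push_cast
    ring
  · simp

theorem PBR_do (hn : n j = 1) (y : ∀ i : {i : Fin k // i ≠ j}, ZMod (n i + 1) → ℂ) (t : ℂ)
    (c : Cell (fun i : {i : Fin k // i ≠ j} => n i)) (b : ℕ) (s : ℂ) :
    eval (PBR_x n j y t) (pderiv (PBR_o n j) (monomial (PBR_mu n d j c b) s)) =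
      (∏ i', y i' (c i')) * (s * b * t ^ (b - 1)) := by
  classical
  rw [PBR_eval, PBR_mu_o n d j hn]
  rcases Nat.eq_zero_or_pos b with hb | hb
  · subst hb
    simp
  · have h1 : PBR_mu n d j c b - Finsupp.single (PBR_o n j) 1 =
        ∑ i', Finsupp.single (PBR_v n j i' (c i')) 1 +
          Finsupp.single (PBR_z n j) (d j - b) + Finsupp.single (PBR_o n j) (b - 1) := by
      unfold PBR_mu
      have h2 : Finsupp.single (PBR_o n j) b = Finsupp.single (PBR_o n j) (b - 1) +
          Finsupp.single (PBR_o n j) 1 := by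
        rw [← Finsupp.single_add, Nat.sub_add_cancel hb]
      rw [h2, ← add_assoc, add_tsub_cancel_right]
    rw [h1, PBR_E_add, PBR_E_add, PBR_E_sum]
    simp only [PBR_E_single, PBR_x_v, PBR_x_z, PBR_x_o n j hn, pow_one, one_pow]
    ring

theorem PBR_evalPsi (f : MvPolynomial (Var n) ℂ) (c : Cell (fun i : {i : Fin k // i ≠ j} => n i))
    (t : ℂ) : (PBR_Psi n d j f c).eval t =
      ∑ b ∈ Finset.range (d j + 1), coeff (PBR_mu n d j c b) f * t ^ b := by
  rw [PBR_Psi_apply, Polynomial.eval_finsetSum]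
  simp only [Polynomial.eval_monomial]

theorem PBR_evaldPsi (f : MvPolynomial (Var n) ℂ) (c : Cell (fun i : {i : Fin k // i ≠ j} => n i))
    (t : ℂ) : (Polynomial.derivative (PBR_Psi n d j f c)).eval t =
      ∑ b ∈ Finset.range (d j + 1), coeff (PBR_mu n d j c b) f * b * t ^ (b - 1) := by
  rw [PBR_Psi_apply, Polynomial.derivative_sum, Polynomial.eval_finsetSum]
  simp only [Polynomial.derivative_monomial, Polynomial.eval_monomial]

theorem PBR_sing (hn : n j = 1) (hd : ∀ i, i ≠ j → d i = 1) (f : MvPolynomial (Var n) ℂ)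
    (hf : f ∈ Sec (Sigma.fst : Var n → Fin k) Finset.univ d)
    (y : ∀ i : {i : Fin k // i ≠ j}, ZMod (n i + 1) → ℂ) (t : ℂ)
    (h : ∀ v, eval (PBR_x n j y t) (pderiv v f) = 0) :
    SingAt (n := fun i : {i : Fin k // i ≠ j} => n i) (PBR_Psi n d j f) y t := by
  classical
  constructor
  · intro i a
    have h1 := h (PBR_v n j i a)
    rw [PBR_rep n d j hn hd f hf, map_sum, map_sum] at h1
    refine Eq.trans (Finset.sum_congr rfl fun c _ => ?_) h1
    rw [map_sum, map_sum]
    simp only [PBR_dv n d j hn y t c _ _ i a]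
    split_ifs with hc
    · rw [PBR_evalPsi, Finset.mul_sum]
    · rw [Finset.sum_const_zero]
  · have h1 := h (PBR_o n j)
    rw [PBR_rep n d j hn hd f hf, map_sum, map_sum] at h1
    refine Eq.trans (Finset.sum_congr rfl fun c _ => ?_) h1
    rw [map_sum, map_sum]
    simp only [PBR_do n d j hn y t c _ _]
    rw [PBR_evaldPsi, Finset.mul_sum]

end PBR

theorem PBR_finite {K : Type} [Fintype K] [DecidableEq K] (n : K → ℕ) (E : ℕ) {r : ℕ}
    (y : Fin r → ∀ i : K, ZMod (n i + 1) → ℂ) (t : Fin r → ℂ) :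
    Module.Finite ℂ ↥(SolF n E y t) := by
  have : Module.Finite ℂ ↥(Polynomial.degreeLT ℂ E) :=
    Module.Finite.equiv (Polynomial.degreeLTEquiv ℂ E).symm
  let g : ↥(SolF n E y t) →ₗ[ℂ] (Cell n → ↥(Polynomial.degreeLT ℂ E)) :=
    { toFun := fun F c => ⟨F.1 c, F.2.1 c⟩
      map_add' := fun F G => rfl
      map_smul' := fun s F => rfl }
  refine Module.Finite.of_injective g ?_
  intro F G hFG
  apply Subtype.ext
  funext c
  exact congrArg Subtype.val (congrFun hFG c)

theorem PBR : PBR_stmt := by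
  intro k n d j hn hd r y t
  classical
  refine ⟨fun l => PBR_x n j (y l) (t l), ?_⟩
  have := PBR_finite (fun i : {i : Fin k // i ≠ j} => n i) (d j + 1) y t
  have hmem : ∀ f : ↥(Sng (Sigma.fst : Var n → Fin k) d (fun l => PBR_x n j (y l) (t l))),
      PBR_Psi n d j f.1 ∈ SolF (fun i : {i : Fin k // i ≠ j} => n i) (d j + 1) y t := by
    intro f
    obtain ⟨hf, hf'⟩ := mem_Sng.mp f.2
    rw [mem_SolF]
    refine ⟨fun c => ?_, fun l => ?_⟩
    · rw [PBR_Psi_apply]
      refine Submodule.sum_mem _ fun b hb => ?_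
      rw [Polynomial.mem_degreeLT]
      refine lt_of_le_of_lt (Polynomial.degree_monomial_le _ _) ?_
      exact_mod_cast Finset.mem_range.mp hb
    · exact PBR_sing n d j hn hd f.1 hf (y l) (t l) (fun v => hf' l v)
  let g : ↥(Sng (Sigma.fst : Var n → Fin k) d (fun l => PBR_x n j (y l) (t l))) →ₗ[ℂ]
      ↥(SolF (fun i : {i : Fin k // i ≠ j} => n i) (d j + 1) y t) :=
    LinearMap.codRestrict _ ((PBR_Psi n d j) ∘ₗ (Submodule.subtype _)) hmem
  refine LinearMap.finrank_le_finrank_of_injective (f := g) ?_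
  rw [← LinearMap.ker_eq_bot, LinearMap.ker_eq_bot']
  intro f hf
  have h1 : PBR_Psi n d j f.1 = 0 := congrArg Subtype.val hf
  obtain ⟨hs, -⟩ := mem_Sng.mp f.2
  apply Subtype.ext
  change f.1 = 0
  rw [PBR_rep n d j hn hd f.1 hs]
  refine Finset.sum_eq_zero fun c _ => Finset.sum_eq_zero fun b hb => ?_
  rw [← PBR_Psi_coeff n d j f.1 c b hb, h1]
  simp

end Pool.Agent.SV
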